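import Pool.Agent.helper51.PC.Spec

set_option autoImplicit false

/-! Row pc:EXP (helper79). -/

namespace Pool.Agent.PC

open Finset

universe u

section

variable {K : Type u} [Field K]

/-- the difference operator `s - 1` -/
def EXP_N (s : K →+* K) (y : K) : K := s y - y

theorem EXP_N_sub (s : K →+* K) (x y : K) : EXP_N s (x - y) = EXP_N s x - EXP_N s y := by
  unfold EXP_N
  rw [map_sub]
  ring

theorem EXP_N_mul (s : K →+* K) (c y : K) (hc : s c = c) : EXP_N s (c * y) = c * EXP_N s y := by
  unfold EXP_N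
  rw [map_mul, hc]
  ring

theorem EXP_it_sub (s : K →+* K) (j : ℕ) : ∀ x y : K,
    (EXP_N s)^[j] (x - y) = (EXP_N s)^[j] x - (EXP_N s)^[j] y := by
  induction j with
  | zero => intro x y; rfl
  | succ j ih =>
    intro x y
    rw [Function.iterate_succ_apply, EXP_N_sub, ih, ← Function.iterate_succ_apply,
      ← Function.iterate_succ_apply]

theorem EXP_it_mul (s : K →+* K) (j : ℕ) (c : K) (hc : s c = c) : ∀ y : K,
    (EXP_N s)^[j] (c * y) = c * (EXP_N s)^[j] y := by
  induction j with
  | zero => intro y; rfl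
  | succ j ih =>
    intro y
    rw [Function.iterate_succ_apply, EXP_N_mul s c y hc, ih, ← Function.iterate_succ_apply]

theorem EXP_it (s : K →+* K) (j : ℕ) (y : K) :
    (EXP_N s)^[j] y = ∑ k ∈ range (j + 1), ((-1 : ℤ) ^ (j - k) * j.choose k) • s^[k] y := by
  have h1 : ∀ (j : ℕ) (y : K) (m : ℕ),
      (fwdDiff 1)^[j] (fun m : ℕ => s^[m] y) m = s^[m] ((EXP_N s)^[j] y) := by
    intro j
    induction j with
    | zero => intro y m; rfl
    | succ j ih =>
      intro y m
      have h2 : fwdDiff 1 (fun m : ℕ => s^[m] y) = fun m : ℕ => s^[m] (EXP_N s y) := by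
        funext m
        show s^[m + 1] y - s^[m] y = s^[m] (s y - y)
        rw [Function.iterate_succ_apply, ← RingHom.coe_pow, map_sub]
      rw [Function.iterate_succ_apply, h2, ih, ← Function.iterate_succ_apply]
  have h3 := h1 j y 0
  rw [Function.iterate_zero_apply] at h3
  rw [← h3, fwdDiff_iter_eq_sum_shift]
  refine Finset.sum_congr rfl fun k _ => ?_
  rw [zero_add, smul_eq_mul, mul_one]

theorem EXP_pow (s : K →+* K) (a : K) (ha : s a = a + 1) (j : ℕ) :
    (EXP_N s)^[j] (a ^ j) = (Nat.factorial j : K) := by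
  have h1 : ∀ k : ℕ, s^[k] a = a + k := by
    intro k
    induction k with
    | zero => simp
    | succ k ih =>
      rw [Function.iterate_succ_apply', ih, map_add, map_natCast, ha]
      push_cast
      ring
  rw [EXP_it]
  have h2 := congrFun (fwdDiff_iter_eq_factorial (R := K) (n := j)) a
  rw [fwdDiff_iter_eq_sum_shift] at h2
  rw [show ((Nat.factorial j : K)) = (Nat.factorial j : K → K) a from rfl, ← h2]
  refine Finset.sum_congr rfl fun k _ => ?_
  rw [← RingHom.coe_pow, map_pow, RingHom.coe_pow, h1, nsmul_eq_mul, mul_one]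

theorem EXP_p (s : K →+* K) (p : ℕ) [hp : Fact p.Prime] [CharP K p] (hs : ∀ y, s^[p] y = y)
    (y : K) : (EXP_N s)^[p] y = 0 := by
  obtain ⟨q, hq⟩ : ∃ q, p = q + 1 := ⟨p - 1, (Nat.succ_pred_eq_of_pos hp.out.pos).symm⟩
  have h1 : ∑ k ∈ range q, ((-1 : ℤ) ^ (p - (k + 1)) * p.choose (k + 1)) • s^[k + 1] y = 0 := by
    refine Finset.sum_eq_zero fun k hk => ?_
    rw [Finset.mem_range] at hk
    have h2 : ((p.choose (k + 1) : ℕ) : K) = 0 := by
      rw [CharP.cast_eq_zero_iff K p]
      exact hp.out.dvd_choose_self (by omega) (by omega)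
    rw [zsmul_eq_mul]
    push_cast
    rw [h2]
    ring
  rw [EXP_it, Finset.sum_range_succ]
  have h3 : ∑ k ∈ range p, ((-1 : ℤ) ^ (p - k) * p.choose k) • s^[k] y = -y := by
    have h4 : range p = range (q + 1) := by rw [hq]
    rw [h4, Finset.sum_range_succ', h1, zero_add, Nat.sub_zero, Nat.choose_zero_right,
      Function.iterate_zero_apply, zsmul_eq_mul]
    push_cast
    rw [neg_one_pow_char K p]
    ring
  rw [h3, hs y, Nat.sub_self, Nat.choose_self, zsmul_eq_mul]
  push_cast
  ring

theorem EXP_ind (s : K →+* K) (p : ℕ) [hp : Fact p.Prime] [CharP K p] (a : K) (ha : s a = a + 1)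
    (j : ℕ) : j ≤ p → ∀ y : K, (EXP_N s)^[j] y = 0 →
      ∃ c : ℕ → K, (∀ i, s (c i) = c i) ∧ y = ∑ i ∈ range j, c i * a ^ i := by
  induction j with
  | zero =>
    intro _ y hy
    exact ⟨fun _ => 0, fun _ => map_zero s, by rw [Finset.sum_range_zero]; exact hy⟩
  | succ j ih =>
    intro hj y hy
    have hf : (Nat.factorial j : K) ≠ 0 := by
      intro h
      rw [CharP.cast_eq_zero_iff K p] at h
      exact absurd ((Nat.Prime.dvd_factorial hp.out).1 h) (by omega)
    have hc : s ((EXP_N s)^[j] y) = (EXP_N s)^[j] y := by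
      rw [Function.iterate_succ_apply'] at hy
      exact sub_eq_zero.1 hy
    have hc2 : s ((EXP_N s)^[j] y * (Nat.factorial j : K)⁻¹) =
        (EXP_N s)^[j] y * (Nat.factorial j : K)⁻¹ := by
      rw [map_mul, map_inv₀, map_natCast, hc]
    obtain ⟨c, h1, h2⟩ := ih (by omega)
      (y - (EXP_N s)^[j] y * (Nat.factorial j : K)⁻¹ * a ^ j) (by
        rw [EXP_it_sub, EXP_it_mul s j _ hc2, EXP_pow s a ha, mul_assoc, inv_mul_cancel₀ hf,
          mul_one, sub_self])
    refine ⟨Function.update c j ((EXP_N s)^[j] y * (Nat.factorial j : K)⁻¹), ?_, ?_⟩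
    · intro i
      by_cases hi : i = j
      · subst hi
        rw [Function.update_self]
        exact hc2
      · rw [Function.update_of_ne hi]
        exact h1 i
    · rw [Finset.sum_range_succ, Function.update_self]
      have h3 : ∑ i ∈ range j, Function.update c j ((EXP_N s)^[j] y *
          (Nat.factorial j : K)⁻¹) i * a ^ i = ∑ i ∈ range j, c i * a ^ i := by
        refine Finset.sum_congr rfl fun i hi => ?_
        rw [Function.update_of_ne (Finset.mem_range.1 hi).ne]
      rw [h3, ← h2]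
      ring

end

theorem EXP : EXP_stmt.{u} := by
  intro K _ p hp _ s hs a ha y
  obtain ⟨c, h1, h2⟩ := EXP_ind s p a ha p le_rfl y (EXP_p s p hs y)
  refine ⟨fun i => c i, fun i => h1 i, ?_⟩
  rw [h2, Finset.sum_range]

end Pool.Agent.PC
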